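import Pool.Agent.Y476.RM.Stm3

/-!
# Assembly of the geometric lemma
-/

set_option autoImplicit false
open MeasureTheory Filter Topology
open scoped ENNReal

namespace Pool.Agent.Y924.HM

open Pool.Agent.Y476.RM

/-- carrier of a finite measure that is absolutely continuous with respect to `m` -/
theorem carrier {α : Type*} [MeasurableSpace α] (μ m : Measure α) [IsFiniteMeasure μ]
    [IsFiniteMeasure m] (h : μ ≪ m) :
    ∃ S : Set α, MeasurableSet S ∧ μ Sᶜ = 0 ∧ m.restrict S ≪ μ := by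
  have hm := Measure.measurable_rnDeriv μ m
  have hS : MeasurableSet {x | μ.rnDeriv m x ≠ 0} := hm (measurableSet_singleton 0).compl
  refine ⟨{x | μ.rnDeriv m x ≠ 0}, hS, ?_, ?_⟩
  · rw [← Measure.setLIntegral_rnDeriv' h hS.compl]
    rw [setLIntegral_eq_zero_iff hS.compl hm]
    refine Eventually.of_forall fun x hx => ?_
    simpa using hx
  · refine Measure.AbsolutelyContinuous.mk fun E hE h0 => ?_
    rw [← Measure.setLIntegral_rnDeriv' h hE, setLIntegral_eq_zero_iff hE hm] at h0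
    rw [Measure.restrict_apply hE]
    have : ∀ᵐ x ∂m, x ∉ E ∩ {x | μ.rnDeriv m x ≠ 0} := by
      filter_upwards [h0] with x hx hx2
      exact hx2.2 (hx hx2.1)
    exact measure_eq_zero_iff_ae_notMem.2 this

/-- The law of a pair which is absolutely continuous with respect to some product is absolutely
continuous with respect to the product of the marginals. -/
theorem acl {Ω α β : Type*} [MeasurableSpace Ω] [MeasurableSpace α] [MeasurableSpace β]
    (P : Measure Ω) [IsFiniteMeasure P] (U : Ω → α) (V : Ω → β) (hU : Measurable U)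
    (hV : Measurable V) (m₁ : Measure α) (m₂ : Measure β) [IsFiniteMeasure m₁] [IsFiniteMeasure m₂]
    (h : P.map (fun ω => (U ω, V ω)) ≪ m₁.prod m₂) :
    P.map (fun ω => (U ω, V ω)) ≪ (P.map U).prod (P.map V) := by
  have hUV : Measurable (fun ω => (U ω, V ω)) := hU.prodMk hV
  have h1 : P.map U ≪ m₁ := by
    refine Measure.AbsolutelyContinuous.mk fun E hE h0 => ?_
    have h2 : (m₁.prod m₂) (E ×ˢ Set.univ) = 0 := by rw [Measure.prod_prod, h0, zero_mul]
    have h3 := h h2
    rw [Measure.map_apply hUV (hE.prod MeasurableSet.univ)] at h3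
    rw [Measure.map_apply hU hE]
    refine measure_mono_null ?_ h3
    intro ω hω
    exact ⟨hω, trivial⟩
  have h2 : P.map V ≪ m₂ := by
    refine Measure.AbsolutelyContinuous.mk fun E hE h0 => ?_
    have h2 : (m₁.prod m₂) (Set.univ ×ˢ E) = 0 := by rw [Measure.prod_prod, h0, mul_zero]
    have h3 := h h2
    rw [Measure.map_apply hUV (MeasurableSet.univ.prod hE)] at h3
    rw [Measure.map_apply hV hE]
    refine measure_mono_null ?_ h3
    intro ω hω
    exact ⟨trivial, hω⟩
  obtain ⟨S, hS, hS0, hS1⟩ := carrier _ _ h1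
  obtain ⟨T, hT, hT0, hT1⟩ := carrier _ _ h2
  refine Measure.AbsolutelyContinuous.mk fun E hE h0 => ?_
  have h3 := (hS1.prod hT1) h0
  rw [Measure.prod_restrict, Measure.restrict_apply hE] at h3
  have h4 := h h3
  rw [Measure.map_apply hUV (hE.inter (hS.prod hT))] at h4
  rw [Measure.map_apply hUV hE]
  rw [Measure.map_apply hU hS.compl] at hS0
  rw [Measure.map_apply hV hT.compl] at hT0
  refine measure_mono_null ?_ (measure_union_null h4 (measure_union_null hS0 hT0))
  intro ω hω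
  by_cases h5 : U ω ∈ S
  · by_cases h6 : V ω ∈ T
    · exact Or.inl ⟨hω, h5, h6⟩
    · exact Or.inr (Or.inr h6)
  · exact Or.inr (Or.inl h5)

theorem measurable_zz : Measurable zz := by
  have : Continuous zz := by
    unfold zz
    fun_prop
  exact this.measurable

theorem zz_zz (p : TT × TT) : -p.2 - zz p = p.1 := by
  unfold zz; abel

theorem t (h1 : S_ATOM) (h2 : S_DIS) (h3 : S_LUSIN) (h4 : S_BETA) (h5 : S_F4) (h6 : S_CLOSE) :
    S_GHL := by
  intro P _ ν₁ ν₂ ν₃ _ _ _ hna hP12 hP13 hP23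
  refine Measure.AbsolutelyContinuous.mk fun N hN hN0 => ?_
  rw [Measure.map_apply measurable_zz hN]
  by_contra hne
  have hzN : MeasurableSet (zz ⁻¹' N) := measurable_zz hN
  have m12 : Measurable (fun p : TT × TT => (p.1, p.2)) := measurable_fst.prodMk measurable_snd
  have m13 : Measurable (fun p : TT × TT => (p.1, zz p)) := measurable_fst.prodMk measurable_zz
  have m23 : Measurable (fun p : TT × TT => (p.2, zz p)) := measurable_snd.prodMk measurable_zz
  -- the absolute continuities for a measure dominated by `P`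
  have key : ∀ Q : Measure (TT × TT), IsFiniteMeasure Q → Q ≪ P →
      Q ≪ (Q.map Prod.fst).prod (Q.map Prod.snd) ∧
      Q.map (fun p => (p.1, zz p)) ≪ (Q.map Prod.fst).prod (Q.map zz) ∧
      Q.map (fun p => (p.2, zz p)) ≪ (Q.map Prod.snd).prod (Q.map zz) := by
    intro Q _ hQ
    refine ⟨?_, ?_, ?_⟩
    · have h := acl Q Prod.fst Prod.snd measurable_fst measurable_snd ν₁ ν₂ (by
        have : (fun p : TT × TT => (p.1, p.2)) = id := rfl
        rw [this, Measure.map_id]
        exact hQ.trans hP12)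
      have : (fun p : TT × TT => (p.1, p.2)) = id := rfl
      rwa [this, Measure.map_id] at h
    · exact acl Q Prod.fst zz measurable_fst measurable_zz ν₁ ν₃ ((hQ.map m13).trans hP13)
    · exact acl Q Prod.snd zz measurable_snd measurable_zz ν₂ ν₃ ((hQ.map m23).trans hP23)
  set P1 : Measure (TT × TT) := P.restrict (zz ⁻¹' N) with hP1
  have hP1ne : P1 ≠ 0 := by
    intro h
    apply hne
    have := congrArg (fun m => m Set.univ) h
    simpa [hP1] using this
  have hP1P : P1 ≪ P := Measure.restrict_le_self.absolutelyContinuous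
  have k1 := key P1 inferInstance hP1P
  obtain ⟨B0, C0, hB0, hC0, hBC, hB0pos, hat⟩ := h1 (TT × TT) TT TT P1 Prod.snd zz measurable_snd
    measurable_zz hP1ne k1.2.2
  have hsB0 : MeasurableSet (Prod.snd ⁻¹' B0 : Set (TT × TT)) := measurable_snd hB0
  set P2 : Measure (TT × TT) := P1.restrict (Prod.snd ⁻¹' B0) with hP2
  have hP2ne : P2 Set.univ ≠ 0 := by
    rw [hP2, Measure.restrict_apply_univ]
    exact hB0pos.ne'
  have hP2P1 : P2 ≪ P1 := Measure.restrict_le_self.absolutelyContinuous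
  have hP2P : P2 ≪ P := hP2P1.trans hP1P
  obtain ⟨k12, k13, k23⟩ := key P2 inferInstance hP2P
  -- irreducibility
  have hirr : ∀ B C : Set TT, MeasurableSet B → MeasurableSet C →
      (∀ᵐ p ∂P2, p.2 ∈ B ↔ zz p ∈ C) →
      P2 (Prod.snd ⁻¹' B) = 0 ∨ P2 (Prod.snd ⁻¹' Bᶜ) = 0 := by
    intro B C hB hC hbc
    rw [hP2, ae_restrict_iff' hsB0] at hbc
    have h7 : ∀ᵐ p ∂P1, p.2 ∈ B0 ∩ B ↔ zz p ∈ C0 ∩ C := by
      filter_upwards [hbc, hBC] with p hp1 hp2
      constructor
      · rintro ⟨h8, h9⟩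
        exact ⟨hp2.1 h8, (hp1 h8).1 h9⟩
      · rintro ⟨h8, h9⟩
        have h10 := hp2.2 h8
        exact ⟨h10, (hp1 h10).2 h9⟩
    rcases hat (B0 ∩ B) (C0 ∩ C) (hB0.inter hB) (hC0.inter hC) h7 with h8 | h8
    · left
      rw [hP2, Measure.restrict_apply (measurable_snd hB)]
      refine measure_mono_null ?_ h8
      rintro p ⟨hp1, hp2⟩
      exact ⟨hp2, hp2, hp1⟩
    · right
      rw [hP2, Measure.restrict_apply (measurable_snd hB.compl)]
      refine measure_mono_null ?_ h8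
      rintro p ⟨hp1, hp2⟩
      exact ⟨hp2, fun h9 => hp1 h9.2⟩
  obtain ⟨f, h, hf, hh, hPf, hPh, hrel⟩ := h2 P2 k12 k13
  set μ₁ : Measure TT := P2.map Prod.fst with hμ₁
  set μ₂ : Measure TT := P2.map Prod.snd with hμ₂
  set μ₃ : Measure TT := P2.map zz with hμ₃
  -- the total masses
  have hf1 : ∫⁻ p, Function.uncurry f p ∂(μ₁.prod μ₂) = P2 Set.univ := by
    conv_rhs => rw [hPf]
    rw [withDensity_apply _ MeasurableSet.univ, Measure.restrict_univ]
  have hh1 : ∫⁻ p, Function.uncurry h p ∂(μ₁.prod μ₃) = P2 Set.univ := by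
    have h8 : (P2.map (fun p => (p.1, zz p))) Set.univ = P2 Set.univ := by
      rw [Measure.map_apply m13 MeasurableSet.univ, Set.preimage_univ]
    rw [← h8, hPh, withDensity_apply _ MeasurableSet.univ, Measure.restrict_univ]
  -- the function `g`
  have hg : Measurable fun x => ∫⁻ y, f x y ∂μ₂ := hf.lintegral_prod_right
  have hg1 : ∫⁻ x, ∫⁻ y, f x y ∂μ₂ ∂μ₁ ≠ 0 := by
    have h8 := lintegral_prod (μ := μ₁) (ν := μ₂) (Function.uncurry f) hf.aemeasurable
    simp only [Function.uncurry_apply_pair] at h8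
    rw [← h8, hf1]
    exact hP2ne
  obtain ⟨c, hc, hD⟩ : ∃ c : ℝ≥0∞, 0 < c ∧ μ₁ {x | c ≤ ∫⁻ y, f x y ∂μ₂} ≠ 0 := by
    by_contra hcon
    push Not at hcon
    apply hg1
    rw [lintegral_eq_zero_iff hg]
    have h8 : μ₁ (⋃ n : ℕ, {x | ((n : ℝ≥0∞) + 1)⁻¹ ≤ ∫⁻ y, f x y ∂μ₂}) = 0 := by
      rw [measure_iUnion_null_iff]
      intro n
      apply hcon
      rw [ENNReal.inv_pos]
      exact ENNReal.add_ne_top.2 ⟨ENNReal.natCast_ne_top n, ENNReal.one_ne_top⟩
    have h9 : ∀ᵐ x ∂μ₁, x ∉ ⋃ n : ℕ, {x | ((n : ℝ≥0∞) + 1)⁻¹ ≤ ∫⁻ y, f x y ∂μ₂} :=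
      measure_eq_zero_iff_ae_notMem.1 h8
    filter_upwards [h9] with x hx
    by_contra h10
    apply hx
    obtain ⟨n, hn⟩ := ENNReal.exists_inv_nat_lt h10
    rw [Set.mem_iUnion]
    refine ⟨n, ?_⟩
    refine le_trans ?_ hn.le
    rw [ENNReal.inv_le_inv]
    exact le_self_add
  set D : Set TT := {x | c ≤ ∫⁻ y, f x y ∂μ₂} with hDdef
  have hDm : MeasurableSet D := measurableSet_le measurable_const hg
  set δ : ℝ≥0∞ := μ₁ D / 2 / 2 with hδ
  have hδpos : 0 < δ := by
    rw [hδ]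
    exact ENNReal.half_pos (ENNReal.half_pos hD).ne'
  obtain ⟨A1, hA1, hA1c, hA1f, hA1l⟩ := h3 TT TT μ₁ μ₂ f hf (by
    rw [hf1]; exact measure_ne_top _ _) δ hδpos
  obtain ⟨A2, hA2, hA2c, hA2f, hA2l⟩ := h3 TT TT μ₁ μ₃ h hh (by
    rw [hh1]; exact measure_ne_top _ _) δ hδpos
  set G : Set TT := (toMeasurable μ₁ {x | ¬ (μ₂.withDensity (f x)).map (fun y => -x - y)
    = μ₃.withDensity (h x)})ᶜ with hG
  have hGm : MeasurableSet G := (measurableSet_toMeasurable _ _).compl
  have hGc : μ₁ Gᶜ = 0 := by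
    rw [hG, compl_compl, measure_toMeasurable]
    exact hrel
  have hGr : ∀ x ∈ G, (μ₂.withDensity (f x)).map (fun y => -x - y) = μ₃.withDensity (h x) := by
    intro x hx
    by_contra h8
    exact hx (subset_toMeasurable _ _ h8)
  set A : Set TT := D ∩ (A1 ∩ (A2 ∩ G)) with hA
  have hAm : MeasurableSet A := hDm.inter (hA1.inter (hA2.inter hGm))
  have hApos : μ₁ A ≠ 0 := by
    intro hA0
    have h8 : D ⊆ A ∪ (A1ᶜ ∪ (A2ᶜ ∪ Gᶜ)) := by
      intro x hx
      by_cases h9 : x ∈ A1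
      · by_cases h10 : x ∈ A2
        · by_cases h11 : x ∈ G
          · exact Or.inl ⟨hx, h9, h10, h11⟩
          · exact Or.inr (Or.inr (Or.inr h11))
        · exact Or.inr (Or.inr (Or.inl h10))
      · exact Or.inr (Or.inl h9)
    have h9 : μ₁ D ≤ μ₁ D / 2 := by
      calc μ₁ D ≤ μ₁ (A ∪ (A1ᶜ ∪ (A2ᶜ ∪ Gᶜ))) := measure_mono h8
        _ ≤ μ₁ A + (μ₁ A1ᶜ + (μ₁ A2ᶜ + μ₁ Gᶜ)) :=
            (measure_union_le _ _).trans (add_le_add le_rfl ((measure_union_le _ _).trans
              (add_le_add le_rfl (measure_union_le _ _))))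
        _ ≤ 0 + (δ + (δ + 0)) :=
            add_le_add hA0.le (add_le_add hA1c (add_le_add hA2c hGc.le))
        _ = μ₁ D / 2 := by rw [zero_add, add_zero, hδ, ENNReal.add_halves]
    exact absurd h9 (not_le.2 (ENNReal.half_lt_self hD (measure_ne_top _ _)))
  have hμν : μ₁ ≪ ν₁ := by
    refine Measure.AbsolutelyContinuous.mk fun E hE h0 => ?_
    rw [hμ₁, Measure.map_apply measurable_fst hE]
    apply hP2P
    apply hP12
    have : (Prod.fst ⁻¹' E : Set (TT × TT)) = E ×ˢ Set.univ := by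
      ext p; simp
    rw [this, Measure.prod_prod, h0, zero_mul]
  have hAinf : A.Infinite := by
    intro hfin
    apply hApos
    apply hμν
    have : NullSingletonClass ν₁ := ⟨hna⟩
    exact hfin.measure_zero ν₁
  have hbeta := h4 P2 f h hf hh hPf hPh hrel hirr A c hc (fun x hx => hGr x hx.2.2.2)
    (fun x hx => ⟨hx.1, hA1f x hx.2.1⟩)
    (fun ε hε => by
      obtain ⟨η, hη, h8⟩ := hA1l ε hε
      exact ⟨η, hη, fun x hx x' hx' => h8 x hx.2.1 x' hx'.2.1⟩)
    (fun ε hε => by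
      obtain ⟨η, hη, h8⟩ := hA2l ε hε
      exact ⟨η, hη, fun x hx x' hx' => h8 x hx.2.2.1 x' hx'.2.2.1⟩)
  have hf4 := h5 μ₂ μ₃ A hAm (by
    intro h8
    apply hApos
    have h9 := k23 h8
    have hm : MeasurableSet {p : TT × TT | -p.1 - p.2 ∈ A} := measurable_zz hAm
    rw [Measure.map_apply m23 hm] at h9
    rw [hμ₁, Measure.map_apply measurable_fst hAm]
    refine measure_mono_null ?_ h9
    intro p hp
    show -p.2 - zz p ∈ A
    rw [zz_zz]
    exact hp)
  have hac : μ₂ ≪ (volume : Measure TT) := h6 μ₂ A hAinf hbeta hf4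
  have h8 : (μ₁.prod (volume : Measure TT)) (zz ⁻¹' N) = 0 := by
    rw [Measure.prod_apply hzN]
    have : ∀ x : TT, (volume : Measure TT) (Prod.mk x ⁻¹' (zz ⁻¹' N)) = 0 := by
      intro x
      have h9 := (Measure.measurePreserving_sub_left (volume : Measure TT) (-x)).measure_preimage
        hN.nullMeasurableSet
      rw [hN0] at h9
      exact h9
    simp [this]
  have h9 : P2 (zz ⁻¹' N) = 0 := by
    apply k12
    exact (Measure.AbsolutelyContinuous.rfl.prod hac) h8
  have h10 : P2 (zz ⁻¹' N)ᶜ = 0 := by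
    apply hP2P1
    rw [hP1, Measure.restrict_apply hzN.compl, Set.compl_inter_self, measure_empty]
  apply hP2ne
  rw [← Set.union_compl_self (zz ⁻¹' N)]
  exact measure_union_null h9 h10

end Pool.Agent.Y924.HM
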